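import Pool.Agent.Helper79.GL4.GoalsB

/-!
# GL4: D1 and D2 (duality)
-/

set_option linter.unusedVariables false

namespace GL4

open Module Submodule

section
variable {F : Type} [Field F] {V : Type} [AddCommGroup V] [Module F V]

/-- the contragredient of `k` -/
def ks (k : V ≃ₗ[F] V) : Module.Dual F V ≃ₗ[F] Module.Dual F V := k.symm.dualMap

theorem ks_apply (k : V ≃ₗ[F] V) (f : Module.Dual F V) (v : V) : (ks k f) (k v) = f v := by
  change f (k.symm (k v)) = f v
  rw [k.symm_apply_apply]

theorem ks_mem {K : Subgroup (V ≃ₗ[F] V)} {k : V ≃ₗ[F] V} (hk : k ∈ K) : ks k ∈ dGrp K :=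
  ⟨k, hk, ks_apply k⟩

theorem im_of_dual {g : Module.Dual F V ≃ₗ[F] Module.Dual F V} {k : V ≃ₗ[F] V}
    (h : ∀ f v, (g f) (k v) = f v) (U : Submodule F V) :
    im g U.dualAnnihilator = (im k U).dualAnnihilator := by
  ext f
  constructor
  · rintro ⟨f, hf, rfl⟩
    rw [mem_dualAnnihilator]
    rintro _ ⟨v, hv, rfl⟩
    exact (h f v).trans ((mem_dualAnnihilator f).1 hf v hv)
  · intro hf
    rw [mem_im, mem_dualAnnihilator]
    intro v hv
    have h1 := h (g⁻¹ f) v
    have h2 : g (g⁻¹ f) = f := g.apply_symm_apply f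
    rw [h2] at h1
    rw [← h1]
    exact (mem_dualAnnihilator f).1 hf (k v) ⟨v, hv, rfl⟩

theorem im_ks (k : V ≃ₗ[F] V) (U : Submodule F V) :
    im (ks k) U.dualAnnihilator = (im k U).dualAnnihilator := im_of_dual (ks_apply k) U

variable [FiniteDimensional F V]

theorem ann_inj {U U' : Submodule F V} (h : U.dualAnnihilator = U'.dualAnnihilator) : U = U' := by
  rw [← Subspace.dualAnnihilator_dualCoannihilator_eq (W := U), h,
    Subspace.dualAnnihilator_dualCoannihilator_eq]

theorem ann_co (T : Submodule F (Module.Dual F V)) :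
    T.dualCoannihilator.dualAnnihilator = T := Subspace.dualCoannihilator_dualAnnihilator_eq

theorem ann_le_ann {U U' : Submodule F V} : U.dualAnnihilator ≤ U'.dualAnnihilator ↔ U' ≤ U := by
  constructor
  · intro h
    have := Submodule.dualCoannihilator_anti h
    rwa [Subspace.dualAnnihilator_dualCoannihilator_eq,
      Subspace.dualAnnihilator_dualCoannihilator_eq] at this
  · exact fun h => Submodule.dualAnnihilator_anti h

theorem im_ann_iff {g : Module.Dual F V ≃ₗ[F] Module.Dual F V} {k : V ≃ₗ[F] V}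
    (h : ∀ f v, (g f) (k v) = f v) (U U' : Submodule F V) :
    im g U.dualAnnihilator = U'.dualAnnihilator ↔ im k U = U' := by
  rw [im_of_dual h]
  exact ⟨ann_inj, fun h => by rw [h]⟩

end

theorem D1_holds : D1 := by
  intro F _ V _ _ _ K hK x y x' y' hx hy hx' hy' hxy hxy'
  obtain ⟨k, hk, h1, h2⟩ := hK x.dualCoannihilator y.dualCoannihilator x'.dualCoannihilator
    y'.dualCoannihilator hx.coann hy.coann hx'.coann hy'.coann
    (fun h => hxy (by rw [← ann_co x, h, ann_co])) (fun h => hxy' (by rw [← ann_co x', h, ann_co]))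
  refine ⟨ks k, ks_mem hk, ?_, ?_⟩
  · have := (im_ann_iff (ks_apply k) x.dualCoannihilator x'.dualCoannihilator).2 h1
    rwa [ann_co, ann_co] at this
  · have := (im_ann_iff (ks_apply k) y.dualCoannihilator y'.dualCoannihilator).2 h2
    rwa [ann_co, ann_co] at this

theorem D2_holds : D2 := by
  intro F _ V _ _ _ K c hn
  constructor
  · intro hC f h hf hh hfh
    obtain ⟨Z, hPZ, hZH, hd, hinv, htr⟩ := hC h.dualCoannihilator f.dualCoannihilator hh.coann
      hf.coann (Submodule.dualCoannihilator_anti hfh)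
    have hdZ := Subspace.finrank_add_finrank_dualAnnihilator_eq Z
    refine ⟨Z.dualAnnihilator, ?_, ?_, ?_, ?_, ?_⟩
    · rw [← ann_co f]; exact ann_le_ann.2 hZH
    · rw [← ann_co h]; exact ann_le_ann.2 hPZ
    · rw [Subspace.dual_finrank_eq]; omega
    · rintro g ⟨k, hk, hgk⟩ h1 h2
      rw [im_ann_iff hgk]
      refine hinv k hk ?_ ?_
      · rw [← im_ann_iff hgk, ann_co]; exact h2
      · rw [← im_ann_iff hgk, ann_co]; exact h1
    · intro x y hx hy hxh hyh hxZ hyZ
      obtain ⟨k, hk, h1, h2, h3⟩ := htr x.dualCoannihilator y.dualCoannihilator hx.coann hy.coann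
        (Submodule.dualCoannihilator_anti hxh) (Submodule.dualCoannihilator_anti hyh)
        (fun hc => hxZ (by rw [← ann_co x]; exact ann_le_ann.2 hc))
        (fun hc => hyZ (by rw [← ann_co y]; exact ann_le_ann.2 hc))
      refine ⟨ks k, ks_mem hk, ?_, ?_, ?_⟩
      · have := (im_ann_iff (ks_apply k) _ _).2 h2
        rwa [ann_co] at this
      · have := (im_ann_iff (ks_apply k) _ _).2 h1
        rwa [ann_co] at this
      · have := (im_ann_iff (ks_apply k) _ _).2 h3
        rwa [ann_co, ann_co] at this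
  · intro hB f h hf hh hfh
    obtain ⟨Z, hPZ, hZH, hd, hinv, htr⟩ := hB h.dualCoannihilator f.dualCoannihilator hh.coann
      hf.coann (Submodule.dualCoannihilator_anti hfh)
    have hdZ := Subspace.finrank_add_finrank_dualAnnihilator_eq Z
    refine ⟨Z.dualAnnihilator, ?_, ?_, ?_, ?_, ?_⟩
    · rw [← ann_co f]; exact ann_le_ann.2 hZH
    · rw [← ann_co h]; exact ann_le_ann.2 hPZ
    · omega
    · rintro g ⟨k, hk, hgk⟩ h1 h2
      rw [im_ann_iff hgk]
      refine hinv k hk ?_ ?_
      · rw [← im_ann_iff hgk, ann_co]; exact h2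
      · rw [← im_ann_iff hgk, ann_co]; exact h1
    · intro H₁ H₂ hH₁ hH₂ hf1 hf2 hZ1 hZ2
      obtain ⟨k, hk, h1, h2, h3⟩ := htr H₁.dualCoannihilator H₂.dualCoannihilator hH₁.coann
        hH₂.coann (Submodule.dualCoannihilator_anti hf1) (Submodule.dualCoannihilator_anti hf2)
        (fun hc => hZ1 (by rw [← ann_co H₁]; exact ann_le_ann.2 hc))
        (fun hc => hZ2 (by rw [← ann_co H₂]; exact ann_le_ann.2 hc))
      refine ⟨ks k, ks_mem hk, ?_, ?_, ?_⟩
      · have := (im_ann_iff (ks_apply k) _ _).2 h2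
        rwa [ann_co] at this
      · have := (im_ann_iff (ks_apply k) _ _).2 h1
        rwa [ann_co] at this
      · have := (im_ann_iff (ks_apply k) _ _).2 h3
        rwa [ann_co, ann_co] at this

end GL4
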